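import Pool.Agent.helper82.EF.GF1

/-! # Project EF, module GF: extension of test functions -/

namespace Pool.Agent.helper88.EF

open Finset Pool.Agent.helper76.LP

section step
variable {m' m p0 : ℕ} [NeZero m'] [NeZero m]

lemma GF_prime_sq {p a b : ℕ} (hp : p.Prime) (ha : a.Prime) (hne : p ≠ a) (h : p ∣ a * b) :
    p ∣ b := by
  rcases (hp.dvd_mul).1 h with h | h
  · exact absurd ((Nat.prime_dvd_prime_iff_eq hp ha).1 h) hne
  · exact h

/-- the step for the structure `Ext` -/
theorem GF_step (hm : m' * p0 = m) (hp0 : p0.Prime) (D q : ℕ) [NeZero D] (hD : D ∣ m')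
    (hq : q.Prime) (hqD : q ∣ D) (ψ : (ZMod D)ˣ → ℤ) (s' : ZMod m' → ℚ)
    (hs' : Ext m' D q ψ s') (a b : ℚ) (u : (ZMod m')ˣ)
    (hQ : p0 = q → a = 0 ∧ b = 0)
    (hC : p0 ≠ q → p0 ∣ m' → a = 1 / p0 ∧ b = 0)
    (hE : p0 ≠ q → ¬ p0 ∣ m' → a = 1 / (p0 - 1) ∧ b = - (1 / (p0 - 1)) ∧
      (u : ZMod m') * (p0 : ZMod m') = 1) :
    Ext m D q ψ (GF_s hm s' (GF_T a b u s')) := by
  have hdist := (GF_dist_iff q s').1 hs'.dist
  refine ⟨?_, ?_, ?_, ?_, ?_⟩
  · -- dist
    rw [GF_dist_iff]
    intro p hp hpm hpq x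
    by_cases hpp : p = p0
    · subst hpp
      by_cases hdv : p ∣ m'
      · apply GF_dist_C hm hp0 hdv s' _ (hdist p hp hdv hpq)
        intro y
        obtain ⟨ha, hb⟩ := hC hpq hdv
        unfold GF_T
        rw [ha, hb]; ring
      · obtain ⟨ha, hb, hu⟩ := hE hpq hdv
        apply GF_dist_E hm hp0 s' _ u hu
        intro y
        unfold GF_T
        rw [ha, hb]; ring
    · have hpm' : p ∣ m' := by
        rw [← hm, Nat.mul_comm] at hpm
        exact GF_prime_sq hp hp0 hpp hpm
      exact GF_dist_ne hm hp0 p hp hpm' hpp s' _ (hdist p hp hpm' hpq)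
        (GF_T_dist a b u s' p (hdist p hp hpm' hpq)) x
  · -- val
    intro z
    have h1 : emb D m (z : ZMod D) = emb m' m (emb D m' (z : ZMod D)) := by
      have h2 : emb D m' (z : ZMod D) = (((z : ZMod D).val * (m' / D) : ℕ) : ZMod m') := rfl
      have h3 : emb D m (z : ZMod D) = (((z : ZMod D).val * (m / D) : ℕ) : ZMod m) := rfl
      rw [h2, emb_natCast (GF_dvd hm), h3]
      congr 1
      have hm'0 : 0 < m' := Nat.pos_of_ne_zero (NeZero.ne m')
      have hD0 : 0 < D := Nat.pos_of_ne_zero (NeZero.ne D)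
      obtain ⟨e, he⟩ := hD
      rw [← hm, Nat.mul_div_cancel_left _ hm'0, he, Nat.mul_div_cancel_left _ hD0, mul_assoc D,
        Nat.mul_div_cancel_left _ hD0, mul_assoc]
    rw [h1, GF_s_emb]
    exact hs'.val z
  · -- supp
    intro x hx
    by_cases hi : ∃ y : ZMod m', emb m' m y = x
    · obtain ⟨y, rfl⟩ := hi
      rw [GF_s_emb] at hx
      rw [GF_order_emb hm]
      exact hs'.supp y hx
    · rw [GF_s_not hm _ _ _ hi] at hx
      set y := ZMod.castHom (GF_dvd hm) (ZMod m') x with hy
      have hp0q : p0 ≠ q := by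
        intro h
        obtain ⟨ha, hb⟩ := hQ h
        apply hx
        unfold GF_T
        rw [ha, hb]; ring
      have h1 : s' y ≠ 0 ∨ s' (u * y) ≠ 0 := by
        by_contra hc
        push Not at hc
        apply hx
        unfold GF_T
        rw [hc.1, hc.2]; ring
      have h2 : D ∣ addOrderOf y ∧ ¬ D * q ∣ addOrderOf y := by
        rcases h1 with h | h
        · exact hs'.supp y h
        · have := hs'.supp _ h
          rwa [GF_order_unit] at this
      rw [GF_order_cast hm hp0 x hi, ← hy]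
      refine ⟨h2.1.mul_left p0, fun h => h2.2 ?_⟩
      obtain ⟨n, hn⟩ := h2.1
      rw [hn] at h ⊢
      rw [mul_left_comm] at h
      have h3 := Nat.dvd_of_mul_dvd_mul_left (Nat.pos_of_ne_zero (NeZero.ne D)) h
      exact Nat.mul_dvd_mul_left D (GF_prime_sq hq hp0 (Ne.symm hp0q) h3)
  · -- mul
    intro p hp hpq x hDp hor
    by_cases hi : ∃ y : ZMod m', emb m' m y = x
    · obtain ⟨y, rfl⟩ := hi
      rw [GF_order_emb hm] at hDp hor
      rw [GF_nat_mul_emb hm, GF_s_emb, GF_s_emb]
      exact hs'.mul p hp hpq y hDp hor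
    · by_cases hpp : p = p0
      · subst hpp
        rw [GF_s_not hm _ _ _ hi, ← GF_emb_cast hm, GF_s_emb]
        have hdv : p ∣ m' := by
          rcases hor with h | h
          · exact h.trans hD
          · have h1 := h.trans (addOrderOf_dvd' x)
            rw [← hm] at h1
            exact Nat.dvd_of_mul_dvd_mul_right hp.pos h1
        obtain ⟨ha, hb⟩ := hC hpq hdv
        unfold GF_T
        rw [ha, hb]; ring
      · have hi' : ¬ ∃ y : ZMod m', emb m' m y = (p : ZMod m) * x := by
          rw [GF_mem_mul hm hp0 p _ x]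
          · exact hi
          · intro h
            exact hpp ((Nat.prime_dvd_prime_iff_eq hp0 hp).1 h).symm
        rw [GF_s_not hm _ _ _ hi, GF_s_not hm _ _ _ hi', map_mul, map_natCast]
        have hfull : D * p ∣ addOrderOf (ZMod.castHom (GF_dvd hm) (ZMod m') x) := by
          apply GF_full hm hp0 x hi _ _ hDp
          refine ⟨p, ?_, Nat.mul_dvd_mul_right hD p⟩
          intro h
          exact hpp ((Nat.prime_dvd_prime_iff_eq hp0 hp).1 h).symm
        have hor' : p ∣ D ∨ p * p ∣ addOrderOf (ZMod.castHom (GF_dvd hm) (ZMod m') x) := by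
          rcases hor with h | h
          · exact Or.inl h
          · right
            rw [GF_order_cast hm hp0 x hi] at h
            have hc : Nat.Coprime (p * p) p0 := by
              have : Nat.Coprime p p0 := (Nat.coprime_primes hp hp0).2 hpp
              exact Nat.Coprime.mul_left this this
            exact hc.dvd_of_dvd_mul_left h
        set y := ZMod.castHom (GF_dvd hm) (ZMod m') x with hy
        unfold GF_T
        rw [hs'.mul p hp hpq y hfull hor',
          hs'.mul p hp hpq ((u : ZMod m') * y) (by rwa [GF_order_unit]) (by rwa [GF_order_unit]),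
          mul_left_comm (u : ZMod m')]
        ring
  · -- new
    intro l hl hlD x x' hlx hllx hxx' hlx'
    have hlq : l ≠ q := by
      rintro rfl
      exact hlD hqD
    by_cases hi : ∃ y : ZMod m', emb m' m y = x
    · have hi' : ∃ y : ZMod m', emb m' m y = x' := by
        rw [GF_mem_iff_order hm] at hi ⊢
        have h1 : addOrderOf (l • x') = addOrderOf x' :=
          Nat.Coprime.addOrderOf_nsmul ((Nat.Prime.coprime_iff_not_dvd hl).2 hlx').symm
        have h2 : addOrderOf (l • x) ∣ addOrderOf x := addOrderOf_smul_dvd l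
        rw [nsmul_eq_mul] at h1 h2
        rw [← h1, hxx']
        exact h2.trans hi
      obtain ⟨y, rfl⟩ := hi
      obtain ⟨y', rfl⟩ := hi'
      rw [GF_order_emb hm] at hlx hllx hlx'
      rw [GF_nat_mul_emb hm, GF_nat_mul_emb hm] at hxx'
      rw [GF_nat_mul_emb hm, GF_s_emb, GF_s_emb, GF_s_emb]
      exact hs'.new l hl hlD y y' hlx hllx (emb_injective (GF_dvd hm) hxx') hlx'
    · by_cases hpp : l = p0
      · subst hpp
        have hdv : ¬ l ∣ m' := by
          intro h
          apply hllx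
          have h1 := GF_full hm hp0 x hi l ⟨1, by
            intro h; exact hl.one_lt.ne' (Nat.dvd_one.1 h), by rwa [mul_one]⟩ hlx
          rw [GF_order_cast hm hp0 x hi]
          exact Nat.mul_dvd_mul_left l h1
        obtain ⟨ha, hb, hu⟩ := hE hlq hdv
        have hi' : ∃ y : ZMod m', emb m' m y = x' := by
          rw [GF_mem_iff_order hm]
          have h1 : addOrderOf x' ∣ m' * l := by rw [hm]; exact addOrderOf_dvd' x'
          exact (((Nat.Prime.coprime_iff_not_dvd hl).2 hlx').symm).dvd_of_dvd_mul_right h1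
        obtain ⟨y', rfl⟩ := hi'
        rw [GF_s_not hm _ _ _ hi, ← GF_emb_cast hm, GF_s_emb, GF_s_emb]
        have hy' : y' = u * ZMod.castHom (GF_dvd hm) (ZMod m') x := by
          have h2 : (l : ZMod m') * y' = ZMod.castHom (GF_dvd hm) (ZMod m') x := by
            apply emb_injective (GF_dvd hm)
            rw [← GF_nat_mul_emb hm, hxx', GF_emb_cast hm]
          rw [← h2, ← mul_assoc, hu, one_mul]
        rw [hy']
        unfold GF_T
        rw [ha, hb]; ring
      · have hnd : ¬ p0 ∣ l := fun h => hpp ((Nat.prime_dvd_prime_iff_eq hp0 hl).1 h).symm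
        have hi1 : ¬ ∃ y : ZMod m', emb m' m y = (l : ZMod m) * x := by
          rw [GF_mem_mul hm hp0 l hnd x]; exact hi
        have hi' : ¬ ∃ y : ZMod m', emb m' m y = x' := by
          rw [← GF_mem_mul hm hp0 l hnd x', hxx']; exact hi1
        rw [GF_s_not hm _ _ _ hi, GF_s_not hm _ _ _ hi1, GF_s_not hm _ _ _ hi', map_mul,
          map_natCast]
        have h1 : l ∣ addOrderOf (ZMod.castHom (GF_dvd hm) (ZMod m') x) := by
          rw [GF_order_cast hm hp0 x hi] at hlx
          exact GF_prime_sq hl hp0 hpp hlx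
        have h2 : ¬ l * l ∣ addOrderOf (ZMod.castHom (GF_dvd hm) (ZMod m') x) := by
          intro h
          apply hllx
          rw [GF_order_cast hm hp0 x hi]
          exact h.mul_left p0
        have h3 : (l : ZMod m') * ZMod.castHom (GF_dvd hm) (ZMod m') x' =
            (l : ZMod m') * ZMod.castHom (GF_dvd hm) (ZMod m') x := by
          have := congrArg (ZMod.castHom (GF_dvd hm) (ZMod m')) hxx'
          rwa [map_mul, map_mul, map_natCast] at this
        have h4 : ¬ l ∣ addOrderOf (ZMod.castHom (GF_dvd hm) (ZMod m') x') := by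
          intro h
          apply hlx'
          rw [GF_order_cast hm hp0 x' hi']
          exact h.mul_left p0
        set y := ZMod.castHom (GF_dvd hm) (ZMod m') x with hy
        set y' := ZMod.castHom (GF_dvd hm) (ZMod m') x' with hy'
        unfold GF_T
        rw [hs'.new l hl hlD y y' h1 h2 h3 h4,
          hs'.new l hl hlD ((u : ZMod m') * y) ((u : ZMod m') * y') (by rwa [GF_order_unit])
            (by rwa [GF_order_unit]) (by rw [mul_left_comm, h3, mul_left_comm])
            (by rwa [GF_order_unit]), mul_left_comm (u : ZMod m')]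
        ring

/-- the bound for the combination -/
lemma GF_bound_T (hm : m' * p0 = m) (hp0 : p0.Prime) (q : ℕ) (ev : Prop) (hev : Even m → ev)
    (B : ℚ) (hB0 : 0 ≤ B) (s' : ZMod m' → ℚ) (hB : ∀ y, |s' y| ≤ B)
    (hB2 : ev → Odd m' → ∀ y, |s' (2 * y) - s' y| ≤ B) (a b : ℚ) (u : (ZMod m')ˣ)
    (hQ : p0 = q → a = 0 ∧ b = 0)
    (hC : p0 ≠ q → p0 ∣ m' → a = 1 / p0 ∧ b = 0)
    (hE : p0 ≠ q → ¬ p0 ∣ m' → a = 1 / (p0 - 1) ∧ b = - (1 / (p0 - 1)) ∧
      (u : ZMod m') * (p0 : ZMod m') = 1) (y : ZMod m') : |GF_T a b u s' y| ≤ B := by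
  unfold GF_T
  by_cases h1 : p0 = q
  · obtain ⟨ha, hb⟩ := hQ h1
    rw [ha, hb]; simpa using hB0
  · by_cases h2 : p0 ∣ m'
    · obtain ⟨ha, hb⟩ := hC h1 h2
      have hp : (1 : ℚ) ≤ p0 := by exact_mod_cast hp0.one_lt.le
      rw [ha, hb, zero_mul, add_zero, abs_mul, abs_of_nonneg (by positivity)]
      calc 1 / (p0 : ℚ) * |s' y| ≤ 1 * |s' y| := by
            apply mul_le_mul_of_nonneg_right _ (abs_nonneg _)
            rw [div_le_one (by linarith)]; exact hp
        _ ≤ B := by rw [one_mul]; exact hB y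
    · obtain ⟨ha, hb, hu⟩ := hE h1 h2
      rcases hp0.eq_two_or_odd with h3 | h3
      · have hodd : Odd m' := by
          rw [← Nat.not_even_iff_odd, even_iff_two_dvd, ← h3]; exact h2
        have hev' : ev := hev (by rw [← hm, h3]; exact even_two.mul_left m')
        have h4 := hB2 hev' hodd (u * y)
        have h5 : (2 : ZMod m') * (u * y) = y := by
          rw [h3] at hu
          rw [← mul_assoc, mul_comm (2 : ZMod m')]
          push_cast at hu
          rw [hu, one_mul]
        rw [h5] at h4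
        rw [ha, hb, h3]
        norm_num
        rw [← sub_eq_add_neg]
        exact h4
      · have hp : (3 : ℚ) ≤ p0 := by
          have : 3 ≤ p0 := by
            have := hp0.two_le
            omega
          exact_mod_cast this
        have h4 : a * s' y + b * s' (u * y) = (s' y - s' (u * y)) / (p0 - 1) := by
          rw [ha, hb]; ring
        rw [h4, abs_div, abs_of_pos (by linarith : (0 : ℚ) < p0 - 1), div_le_iff₀ (by linarith)]
        have h5 := hB y
        have h6 := hB (u * y)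
        rw [abs_le] at h5 h6 ⊢
        constructor <;> nlinarith

end step

/-! ### the base -/

section base
variable {D : ℕ} [NeZero D]

/-- extension by zero -/
noncomputable def GF_b (ψ : (ZMod D)ˣ → ℤ) (x : ZMod D) : ℚ :=
  open Classical in if h : IsUnit x then ψ h.unit else 0

lemma GF_b_unit (ψ : (ZMod D)ˣ → ℤ) (z : (ZMod D)ˣ) : GF_b ψ (z : ZMod D) = ψ z := by
  classical
  unfold GF_b
  rw [dif_pos z.isUnit]
  congr 2
  exact Units.ext rfl

lemma GF_b_not (ψ : (ZMod D)ˣ → ℤ) (x : ZMod D) (h : ¬ IsUnit x) : GF_b ψ x = 0 := by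
  classical
  unfold GF_b
  rw [dif_neg h]

lemma GF_mem_Gam (p : ℕ) (hp : p.Prime) (hpD : p ∣ D) (w : (ZMod D)ˣ) :
    w ∈ Gam D p ↔ (p : ZMod D) * ((w : ZMod D) - 1) = 0 := by
  unfold Gam
  rw [dif_pos hpD, MonoidHom.mem_ker]
  have hD : D / p * p = D := Nat.div_mul_cancel hpD
  have hne : NeZero (D / p) := ⟨by
    intro h
    rw [h, zero_mul] at hD
    exact NeZero.ne D hD.symm⟩
  have h1 := emb_castHom (m := D) (dvd_refl D) hD ((w : ZMod D) - 1)
  have h2 : emb D D ((w : ZMod D) - 1) = (w : ZMod D) - 1 := by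
    unfold emb
    rw [Nat.div_self (Nat.pos_of_ne_zero (NeZero.ne D)), mul_one, ZMod.natCast_zmod_val]
  rw [h2] at h1
  rw [← h1]
  constructor
  · intro h
    have h3 : ZMod.castHom (Dvd.intro p hD) (ZMod (D / p)) ((w : ZMod D) - 1) = 0 := by
      have h4 := congrArg (fun z : (ZMod (D / p))ˣ => (z : ZMod (D / p))) h
      simp only [ZMod.unitsMap_def, Units.coe_map, Units.val_one] at h4
      rw [map_sub, map_one, sub_eq_zero]
      exact h4
    rw [h3, emb_zero]
  · intro h
    have h3 := emb_injective (Dvd.intro p hD) (h.trans emb_zero.symm)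
    apply Units.ext
    simp only [ZMod.unitsMap_def, Units.coe_map, Units.val_one]
    rw [map_sub, map_one, sub_eq_zero] at h3
    exact h3

lemma GF_base_dist (q : ℕ) (ψ : (ZMod D)ˣ → ℤ) (hT : Tst D q ψ) : Dist q (GF_b ψ) := by
  classical
  rw [GF_dist_iff]
  intro p hp hpD hpq x
  have hnu : ¬ IsUnit ((p : ZMod D) * x) := by
    intro h
    have h1 := isUnit_of_mul_isUnit_left h
    rw [ZMod.isUnit_iff_coprime] at h1
    have h2 := Nat.eq_one_of_dvd_coprimes h1 dvd_rfl hpD
    exact hp.one_lt.ne' h2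
  rw [GF_b_not ψ _ hnu, GF_tsum_add]
  by_cases hx : ∃ t0 : ZMod D, (p : ZMod D) * t0 = 0 ∧ IsUnit (x + t0)
  · obtain ⟨t0, ht0, hu⟩ := hx
    obtain ⟨z, hz⟩ := hu
    have h1 : ∀ t : ZMod D, ((p : ZMod D) * t = 0 ↔ (p : ZMod D) * ((x + t) - z) = 0) := by
      intro t
      have : (p : ZMod D) * ((x + t) - z) = (p : ZMod D) * t := by
        rw [hz]
        have h2 : (x + t) - (x + t0) = t - t0 := by ring
        rw [h2, mul_sub, ht0, sub_zero]
      rw [this]
    have h2 : (∑ t : ZMod D, if (p : ZMod D) * t = 0 then GF_b ψ (x + t) else 0) =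
        ∑ y : ZMod D, if (p : ZMod D) * (y - z) = 0 then GF_b ψ y else 0 := by
      rw [← Equiv.sum_comp (Equiv.addLeft x)
        (fun y => if (p : ZMod D) * (y - z) = 0 then GF_b ψ y else 0)]
      refine Finset.sum_congr rfl fun t _ => ?_
      rw [Equiv.coe_addLeft]
      exact if_congr (h1 t) rfl rfl
    rw [h2]
    have h3 := hT p (Nat.mem_primeFactors.2 ⟨hp, hpD, NeZero.ne D⟩) hpq z
    unfold gsum at h3
    have h4 : (∑ w : (ZMod D)ˣ, if w ∈ Gam D p then (ψ (w * z) : ℚ) else 0) = 0 := by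
      have := congrArg (Int.cast : ℤ → ℚ) h3
      push_cast at this
      exact this
    refine Eq.trans ?_ h4
    symm
    rw [← Equiv.sum_comp (Equiv.mulRight z⁻¹)
      (fun w : (ZMod D)ˣ => if w ∈ Gam D p then (ψ (w * z) : ℚ) else 0)]
    have h5 : ∀ v : (ZMod D)ˣ, ((if (Equiv.mulRight z⁻¹) v ∈ Gam D p then
        (ψ ((Equiv.mulRight z⁻¹) v * z) : ℚ) else 0)) =
        if (p : ZMod D) * ((v : ZMod D) - z) = 0 then GF_b ψ (v : ZMod D) else 0 := by
      intro v
      rw [Equiv.coe_mulRight, inv_mul_cancel_right, GF_b_unit]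
      apply if_congr _ rfl rfl
      rw [GF_mem_Gam p hp hpD]
      have h6 : (p : ZMod D) * ((v : ZMod D) - z) =
          (p : ZMod D) * (((v * z⁻¹ : (ZMod D)ˣ) : ZMod D) - 1) * z := by
        rw [mul_assoc, sub_mul, ← Units.val_mul, inv_mul_cancel_right, one_mul]
      rw [h6, Units.mul_left_eq_zero]
    rw [Finset.sum_congr rfl fun v _ => h5 v]
    refine Finset.sum_bij_ne_zero (fun v _ _ => (v : ZMod D)) ?_ ?_ ?_ ?_
    · intro v _ _; exact mem_univ _
    · intro v _ _ w _ _ h; exact Units.ext h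
    · intro y _ hy
      have h7 : IsUnit y := by
        by_contra hc
        apply hy
        rw [GF_b_not ψ y hc]; simp
      obtain ⟨v, rfl⟩ := h7
      exact ⟨v, mem_univ _, hy, rfl⟩
    · intro v _ _; rfl
  · push Not at hx
    refine Finset.sum_eq_zero fun t _ => ?_
    split_ifs with ht
    · exact GF_b_not ψ _ (hx t ht)
    · rfl

lemma GF_order_unit' (x : ZMod D) (hx : IsUnit x) : addOrderOf x = D := by
  obtain ⟨z, rfl⟩ := hx
  have h := addOrderOf_emb (dvd_refl D) z
  have h2 : emb D D (z : ZMod D) = z := by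
    unfold emb
    rw [Nat.div_self (Nat.pos_of_ne_zero (NeZero.ne D)), mul_one, ZMod.natCast_zmod_val]
  rwa [h2] at h

lemma GF_base (q : ℕ) (hq : q.Prime) (ψ : (ZMod D)ˣ → ℤ) (hT : Tst D q ψ) :
    Ext D D q ψ (GF_b ψ) := by
  have hD0 : 0 < D := Nat.pos_of_ne_zero (NeZero.ne D)
  refine ⟨GF_base_dist q ψ hT, ?_, ?_, ?_, ?_⟩
  · intro z
    have h2 : emb D D (z : ZMod D) = z := by
      unfold emb
      rw [Nat.div_self hD0, mul_one, ZMod.natCast_zmod_val]
    rw [h2, GF_b_unit]
  · intro x hx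
    have hu : IsUnit x := by
      by_contra hc
      exact hx (GF_b_not ψ x hc)
    rw [GF_order_unit' x hu]
    refine ⟨dvd_rfl, fun h => ?_⟩
    have h1 := Nat.le_of_dvd hD0 h
    nlinarith [hq.two_le]
  · intro p hp _ x h _
    exfalso
    have h1 := Nat.le_of_dvd hD0 (h.trans (addOrderOf_dvd' x))
    nlinarith [hp.two_le]
  · intro l _ hlD x _ h _ _ _
    exact absurd (h.trans (addOrderOf_dvd' x)) hlD

lemma GF_base_bound (ψ : (ZMod D)ˣ → ℤ) (B : ℤ) (hB0 : 0 ≤ B) (ev : Prop)
    (hB : Bd D ev ψ B) : (∀ x, |GF_b ψ x| ≤ (B : ℚ)) ∧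
      (ev → Odd D → ∀ x, |GF_b ψ (2 * x) - GF_b ψ x| ≤ (B : ℚ)) := by
  have hB0' : (0 : ℚ) ≤ B := by exact_mod_cast hB0
  constructor
  · intro x
    by_cases hx : IsUnit x
    · obtain ⟨z, rfl⟩ := hx
      rw [GF_b_unit]
      exact_mod_cast hB.1 z
    · rw [GF_b_not ψ x hx, abs_zero]; exact hB0'
  · intro hev hodd x
    have h2u : IsUnit (2 : ZMod D) := by
      have : IsUnit ((2 : ℕ) : ZMod D) := by
        rw [ZMod.isUnit_iff_coprime]
        exact Nat.coprime_two_left.2 hodd
      exact_mod_cast this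
    by_cases hx : IsUnit x
    · obtain ⟨z, rfl⟩ := hx
      obtain ⟨z', hz'⟩ := h2u.mul z.isUnit
      rw [← hz', GF_b_unit, GF_b_unit]
      exact_mod_cast hB.2 hev hodd z z' hz'
    · have h3 : ¬ IsUnit (2 * x) := fun h => hx (isUnit_of_mul_isUnit_right h)
      rw [GF_b_not ψ x hx, GF_b_not ψ _ h3, sub_zero, abs_zero]; exact hB0'

end base

theorem GF_main (D q : ℕ) [NeZero D] (hq : q.Prime) (hqD : q ∣ D)
    (ψ : (ZMod D)ˣ → ℤ) (hT : Tst D q ψ) (B : ℤ) (hB0 : 0 ≤ B) (ev : Prop)
    (hB : Bd D ev ψ B) :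
    ∀ m : ℕ, ∀ _ : NeZero m, D ∣ m → (Even m → ev) →
      ∃ s : ZMod m → ℚ, Ext m D q ψ s ∧ (∀ x, |s x| ≤ B) ∧
        (ev → Odd m → ∀ x, |s (2 * x) - s x| ≤ (B : ℚ)) := by
  intro m
  induction m using Nat.strong_induction_on with
  | _ m ih =>
    intro hm0 hD hev
    have hB0' : (0 : ℚ) ≤ B := by exact_mod_cast hB0
    by_cases hmD : m = D
    · subst hmD
      have h := GF_base_bound ψ B hB0 ev hB
      refine ⟨GF_b ψ, ?_, h.1, h.2⟩
      exact GF_base q hq ψ hT
    · have hmpos : 0 < m := Nat.pos_of_ne_zero (NeZero.ne m)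
      have hDpos : 0 < D := Nat.pos_of_ne_zero (NeZero.ne D)
      obtain ⟨k, hk⟩ := hD
      have hk1 : k ≠ 1 := by
        rintro rfl
        exact hmD (by rw [hk, mul_one])
      have hk0 : k ≠ 0 := by
        rintro rfl
        rw [mul_zero] at hk; omega
      obtain ⟨p0, hp0, k', hk'⟩ := Nat.exists_prime_and_dvd hk1
      set m' := D * k' with hm'
      have hmm' : m' * p0 = m := by rw [hk, hk', hm']; ring
      have hk'0 : k' ≠ 0 := by
        rintro rfl
        rw [mul_zero] at hk'; exact hk0 hk'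
      have hm'0 : NeZero m' := ⟨Nat.mul_ne_zero hDpos.ne' hk'0⟩
      have hm'pos : 0 < m' := Nat.pos_of_ne_zero (NeZero.ne m')
      have hlt : m' < m := by
        rw [← hmm']
        nlinarith [hp0.two_le]
      have hDm' : D ∣ m' := Dvd.intro k' rfl
      have hev' : Even m' → ev := by
        intro h
        apply hev
        rw [← hmm']
        exact h.mul_right p0
      obtain ⟨s', hs', hb1, hb2⟩ := ih m' hlt hm'0 hDm' hev'
      have hpar : ∃ (a b : ℚ) (u : (ZMod m')ˣ), (p0 = q → a = 0 ∧ b = 0) ∧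
          (p0 ≠ q → p0 ∣ m' → a = 1 / p0 ∧ b = 0) ∧
          (p0 ≠ q → ¬ p0 ∣ m' → a = 1 / (p0 - 1) ∧ b = - (1 / (p0 - 1)) ∧
            (u : ZMod m') * (p0 : ZMod m') = 1) := by
        by_cases h1 : p0 = q
        · exact ⟨0, 0, 1, fun _ => ⟨rfl, rfl⟩, fun h => absurd h1 h, fun h => absurd h1 h⟩
        · by_cases h2 : p0 ∣ m'
          · exact ⟨1 / p0, 0, 1, fun h => absurd h h1, fun _ _ => ⟨rfl, rfl⟩,
              fun _ h => absurd h2 h⟩
          · have hc : Nat.Coprime p0 m' := (Nat.Prime.coprime_iff_not_dvd hp0).2 h2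
            refine ⟨1 / (p0 - 1), - (1 / (p0 - 1)), (ZMod.unitOfCoprime p0 hc)⁻¹,
              fun h => absurd h h1, fun _ h => absurd h h2, fun _ _ => ⟨rfl, rfl, ?_⟩⟩
            rw [← ZMod.coe_unitOfCoprime p0 hc, Units.inv_mul]
      obtain ⟨a, b, u, hQ, hC, hE⟩ := hpar
      have hbT := GF_bound_T hmm' hp0 q ev hev (B : ℚ) hB0' s' hb1 hb2 a b u hQ hC hE
      refine ⟨GF_s hmm' s' (GF_T a b u s'),
        GF_step hmm' hp0 D q hDm' hq hqD ψ s' hs' a b u hQ hC hE, ?_, ?_⟩
      · intro x
        by_cases hx : ∃ y : ZMod m', emb m' m y = x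
        · obtain ⟨y, rfl⟩ := hx
          rw [GF_s_emb]; exact hb1 y
        · rw [GF_s_not hmm' _ _ _ hx]; exact hbT _
      · intro hevv hodd x
        have hodd' : Odd m' := by
          rw [← hmm'] at hodd
          exact (Nat.odd_mul.1 hodd).1
        have hp0odd : Odd p0 := by
          rw [← hmm'] at hodd
          exact (Nat.odd_mul.1 hodd).2
        have hp3 : 3 ≤ p0 := by
          have h1 := hp0.two_le
          obtain ⟨r, hr⟩ := hp0odd
          omega
        have h2 : ((2 : ℕ) : ZMod m) * x = 2 * x := by push_cast; rfl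
        by_cases hx : ∃ y : ZMod m', emb m' m y = x
        · obtain ⟨y, rfl⟩ := hx
          rw [← h2, GF_nat_mul_emb hmm', GF_s_emb, GF_s_emb]
          push_cast
          exact hb2 hevv hodd' y
        · have hx2 : ¬ ∃ y : ZMod m', emb m' m y = 2 * x := by
            rw [← h2, GF_mem_mul hmm' hp0 2 _ x]
            · exact hx
            · intro h
              have := Nat.le_of_dvd (by norm_num) h
              omega
          rw [GF_s_not hmm' _ _ _ hx, GF_s_not hmm' _ _ _ hx2]
          have h3 : ZMod.castHom (GF_dvd hmm') (ZMod m') (2 * x) =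
              2 * ZMod.castHom (GF_dvd hmm') (ZMod m') x := by
            rw [← h2, map_mul, map_natCast]; push_cast; rfl
          rw [h3]
          set y := ZMod.castHom (GF_dvd hmm') (ZMod m') x with hy
          have hy1 := hb2 hevv hodd' y
          have hy2 := hb2 hevv hodd' (u * y)
          have hpQ : (3 : ℚ) ≤ p0 := by exact_mod_cast hp3
          unfold GF_T
          rw [mul_left_comm (u : ZMod m')]
          by_cases h1 : p0 = q
          · obtain ⟨ha, hb⟩ := hQ h1
            rw [ha, hb]; simpa using hB0'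
          · by_cases h4 : p0 ∣ m'
            · obtain ⟨ha, hb⟩ := hC h1 h4
              rw [ha, hb]
              have h5 : 1 / (p0 : ℚ) * s' (2 * y) + 0 * s' (2 * (u * y)) -
                  (1 / (p0 : ℚ) * s' y + 0 * s' (u * y)) = (s' (2 * y) - s' y) / p0 := by ring
              rw [h5, abs_div, abs_of_pos (by linarith : (0 : ℚ) < p0),
                div_le_iff₀ (by linarith)]
              nlinarith
            · obtain ⟨ha, hb, hu⟩ := hE h1 h4
              rw [ha, hb]
              have h5 : 1 / ((p0 : ℚ) - 1) * s' (2 * y) + -(1 / ((p0 : ℚ) - 1)) * s' (2 * (u * y)) -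
                  (1 / ((p0 : ℚ) - 1) * s' y + -(1 / ((p0 : ℚ) - 1)) * s' (u * y)) =
                  ((s' (2 * y) - s' y) - (s' (2 * (u * y)) - s' (u * y))) / ((p0 : ℚ) - 1) := by
                ring
              rw [h5, abs_div, abs_of_pos (by linarith : (0 : ℚ) < p0 - 1),
                div_le_iff₀ (by linarith)]
              rw [abs_le] at hy1 hy2 ⊢
              constructor <;> nlinarith

theorem gf (m D q : ℕ) [NeZero m] [NeZero D] (hD : D ∣ m) (hq : q.Prime) (hqD : q ∣ D)
    (ψ : (ZMod D)ˣ → ℤ) (hT : Tst D q ψ) (B : ℤ) (hB : Bd D (Even m) ψ B) :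
    ∃ s : ZMod m → ℚ, Ext m D q ψ s ∧ ∀ x, |s x| ≤ B := by
  have hB0 : 0 ≤ B := (abs_nonneg _).trans (hB.1 1)
  obtain ⟨s, h1, h2, _⟩ := GF_main D q hq hqD ψ hT B hB0 (Even m) hB m inferInstance hD id
  exact ⟨s, h1, h2⟩

end Pool.Agent.helper88.EF
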