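import Pool.Agent.helper88.EF.Defs

/-! # Project EF, module GF: preparations -/

namespace Pool.Agent.helper88.EF

open Finset Pool.Agent.helper76.LP

/-- the sum over `{t | p t = 0}` -/
noncomputable def GF_tsum (p : ℕ) {m : ℕ} [NeZero m] (s : ZMod m → ℚ) (x : ZMod m) : ℚ :=
  ∑ t : ZMod m, if (p : ZMod m) * t = 0 then s (x + t) else 0

lemma GF_natCast_eq_zero {m p : ℕ} [NeZero m] (hp : 0 < p) (hpm : p ∣ m) (t : ZMod m) :
    (p : ZMod m) * t = 0 ↔ m / p ∣ t.val := by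
  obtain ⟨e, rfl⟩ := hpm
  rw [Nat.mul_div_cancel_left _ hp]
  have h1 : (p : ZMod (p * e)) * t = ((p * t.val : ℕ) : ZMod (p * e)) := by
    push_cast
    rw [ZMod.natCast_zmod_val]
  rw [h1, ZMod.natCast_eq_zero_iff]
  exact Nat.mul_dvd_mul_iff_left hp

lemma GF_range_sum {m p : ℕ} [NeZero m] (hp : 0 < p) (hpm : p ∣ m) (s : ZMod m → ℚ)
    (x : ZMod m) :
    ∑ j ∈ range p, s (x + ((j * (m / p) : ℕ) : ZMod m)) = GF_tsum p s x := by
  classical
  unfold GF_tsum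
  rw [← Finset.sum_filter]
  have hm : 0 < m := Nat.pos_of_ne_zero (NeZero.ne m)
  have hmp : 0 < m / p := Nat.div_pos (Nat.le_of_dvd hm hpm) hp
  have hmul : p * (m / p) = m := Nat.mul_div_cancel' hpm
  refine Finset.sum_bij (fun j _ => ((j * (m / p) : ℕ) : ZMod m)) ?_ ?_ ?_ ?_
  · intro j hj
    rw [Finset.mem_filter, GF_natCast_eq_zero hp hpm]
    refine ⟨Finset.mem_univ _, ?_⟩
    rw [ZMod.val_natCast, Nat.mod_eq_of_lt]
    · exact Dvd.intro_left j rfl
    · rw [mem_range] at hj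
      calc j * (m / p) < p * (m / p) := Nat.mul_lt_mul_of_pos_right hj hmp
        _ = m := hmul
  · intro j hj k hk h
    rw [mem_range] at hj hk
    have h1 : j * (m / p) < m := by
      calc j * (m / p) < p * (m / p) := Nat.mul_lt_mul_of_pos_right hj hmp
        _ = m := hmul
    have h2 : k * (m / p) < m := by
      calc k * (m / p) < p * (m / p) := Nat.mul_lt_mul_of_pos_right hk hmp
        _ = m := hmul
    have h3 := congrArg ZMod.val h
    rw [ZMod.val_natCast, ZMod.val_natCast, Nat.mod_eq_of_lt h1, Nat.mod_eq_of_lt h2] at h3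
    exact Nat.eq_of_mul_eq_mul_right hmp h3
  · intro t ht
    rw [Finset.mem_filter, GF_natCast_eq_zero hp hpm] at ht
    obtain ⟨j, hj⟩ := ht.2
    refine ⟨j, ?_, ?_⟩
    · rw [mem_range]
      have h1 : (m / p) * j < (m / p) * p := by
        rw [← hj, Nat.mul_comm (m / p) p, hmul]; exact ZMod.val_lt t
      exact Nat.lt_of_mul_lt_mul_left h1
    · rw [Nat.mul_comm, ← hj, ZMod.natCast_zmod_val]
  · intro j _; rfl

lemma GF_dist_iff (q : ℕ) {m : ℕ} [NeZero m] (s : ZMod m → ℚ) :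
    Dist q s ↔ ∀ p : ℕ, p.Prime → p ∣ m → p ≠ q → ∀ x : ZMod m,
      GF_tsum p s x = s ((p : ZMod m) * x) := by
  unfold Dist
  constructor
  · intro h p hp hpm hpq x
    rw [← GF_range_sum hp.pos hpm]; exact h p hp hpm hpq x
  · intro h p hp hpm hpq x
    rw [GF_range_sum hp.pos hpm]; exact h p hp hpm hpq x

/-- multiplication by `u` permutes `{t | p t = 0}` if `u` has an inverse there -/
lemma GF_tsum_mul {m p : ℕ} [NeZero m] (u a : ZMod m)
    (hua : ∀ t : ZMod m, (p : ZMod m) * t = 0 → u * (a * t) = t ∧ a * (u * t) = t)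
    (f : ZMod m → ℚ) :
    (∑ t : ZMod m, if (p : ZMod m) * t = 0 then f (u * t) else 0) =
      ∑ t : ZMod m, if (p : ZMod m) * t = 0 then f t else 0 := by
  classical
  rw [← Finset.sum_filter, ← Finset.sum_filter]
  refine Finset.sum_bij' (fun t _ => u * t) (fun t _ => a * t) ?_ ?_ ?_ ?_ ?_
  · intro t ht
    rw [mem_filter] at ht ⊢
    refine ⟨mem_univ _, ?_⟩
    rw [mul_left_comm, ht.2, mul_zero]
  · intro t ht
    rw [mem_filter] at ht ⊢
    refine ⟨mem_univ _, ?_⟩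
    rw [mul_left_comm, ht.2, mul_zero]
  · intro t ht
    rw [mem_filter] at ht
    exact (hua t ht.2).2
  · intro t ht
    rw [mem_filter] at ht
    exact (hua t ht.2).1
  · intro t _; rfl

lemma GF_inv_nat {m p : ℕ} [NeZero m] (hp : p.Prime) (k : ℕ) (hk : ¬ p ∣ k) :
    ∃ a : ZMod m, ∀ t : ZMod m, (p : ZMod m) * t = 0 →
      (k : ZMod m) * (a * t) = t ∧ a * ((k : ZMod m) * t) = t := by
  have hc : Nat.Coprime k p := (Nat.Prime.coprime_iff_not_dvd hp).2 hk |>.symm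
  obtain ⟨a, ha⟩ := Nat.exists_mul_mod_eq_one_of_coprime hc hp.one_lt
  have h1 : k * a = p * (k * a / p) + 1 := by
    have := Nat.div_add_mod (k * a) p
    omega
  have h2 : ((k : ZMod m) * (a : ZMod m)) = (p : ZMod m) * ((k * a / p : ℕ) : ZMod m) + 1 := by
    have := congrArg (Nat.cast : ℕ → ZMod m) h1
    push_cast at this
    push_cast
    exact this
  refine ⟨a, fun t ht => ?_⟩
  have h3 : (k : ZMod m) * ((a : ZMod m) * t) = t := by
    rw [← mul_assoc, h2, add_mul, one_mul, mul_right_comm, ht, zero_mul, zero_add]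
  refine ⟨h3, ?_⟩
  rw [mul_left_comm, h3]

/-! ### the embedding of `ZMod m'` in `ZMod m`, `m = m' p0` -/

section step
variable {m' m p0 : ℕ} [NeZero m'] [NeZero m]

omit [NeZero m'] [NeZero m] in
lemma GF_dvd (hm : m' * p0 = m) : m' ∣ m := Dvd.intro p0 hm

lemma GF_emb_cast (hm : m' * p0 = m) (x : ZMod m) :
    emb m' m (ZMod.castHom (GF_dvd hm) (ZMod m') x) = (p0 : ZMod m) * x := by
  have h := emb_castHom (m := m) (dvd_refl m) hm x
  rw [h]
  congr 1
  unfold emb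
  rw [Nat.div_self (Nat.pos_of_ne_zero (NeZero.ne m)), mul_one, ZMod.natCast_zmod_val]

lemma GF_cast_emb (hm : m' * p0 = m) (y : ZMod m') :
    ZMod.castHom (GF_dvd hm) (ZMod m') (emb m' m y) = (p0 : ZMod m') * y := by
  apply emb_injective (GF_dvd hm)
  rw [GF_emb_cast hm, mul_emb (GF_dvd hm)]
  simp

lemma GF_nat_mul_emb (hm : m' * p0 = m) (k : ℕ) (y : ZMod m') :
    (k : ZMod m) * emb m' m y = emb m' m ((k : ZMod m') * y) := by
  rw [mul_emb (GF_dvd hm)]
  simp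

lemma GF_order_emb (hm : m' * p0 = m) (y : ZMod m') :
    addOrderOf (emb m' m y) = addOrderOf y := by
  rw [addOrderOf_eq_addOrderOf_iff]
  intro n
  rw [nsmul_eq_mul, nsmul_eq_mul, GF_nat_mul_emb hm]
  constructor
  · intro h
    exact emb_injective (GF_dvd hm) (h.trans emb_zero.symm)
  · intro h
    rw [h, emb_zero]

/-- the image -/
lemma GF_mem_iff (hm : m' * p0 = m) (x : ZMod m) :
    (∃ y : ZMod m', emb m' m y = x) ↔ (m' : ZMod m) * x = 0 := by
  have hm0 : 0 < m := Nat.pos_of_ne_zero (NeZero.ne m)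
  have hm'0 : 0 < m' := Nat.pos_of_ne_zero (NeZero.ne m')
  have hdiv : m / m' = p0 := by rw [← hm, Nat.mul_div_cancel_left _ hm'0]
  rw [GF_natCast_eq_zero hm'0 (GF_dvd hm), hdiv]
  constructor
  · rintro ⟨y, rfl⟩
    rw [emb_val (GF_dvd hm), hdiv]
    exact Dvd.intro_left _ rfl
  · rintro ⟨k, hk⟩
    refine ⟨(k : ZMod m'), ?_⟩
    rw [emb_natCast (GF_dvd hm), hdiv, Nat.mul_comm, ← hk, ZMod.natCast_zmod_val]

lemma GF_mem_iff_order (hm : m' * p0 = m) (x : ZMod m) :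
    (∃ y : ZMod m', emb m' m y = x) ↔ addOrderOf x ∣ m' := by
  rw [GF_mem_iff hm, addOrderOf_dvd_iff_nsmul_eq_zero, nsmul_eq_mul]

lemma GF_mem_iff_val (hm : m' * p0 = m) (x : ZMod m) :
    (∃ y : ZMod m', emb m' m y = x) ↔ p0 ∣ x.val := by
  have hm'0 : 0 < m' := Nat.pos_of_ne_zero (NeZero.ne m')
  have hdiv : m / m' = p0 := by rw [← hm, Nat.mul_div_cancel_left _ hm'0]
  rw [GF_mem_iff hm, GF_natCast_eq_zero hm'0 (GF_dvd hm), hdiv]

lemma GF_mem_add (hm : m' * p0 = m) (x : ZMod m) (y : ZMod m') :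
    (∃ z : ZMod m', emb m' m z = x + emb m' m y) ↔ (∃ z : ZMod m', emb m' m z = x) := by
  rw [GF_mem_iff hm, GF_mem_iff hm, mul_add, (GF_mem_iff hm (emb m' m y)).1 ⟨y, rfl⟩, add_zero]

lemma GF_mem_mul (hm : m' * p0 = m) (hp0 : p0.Prime) (k : ℕ) (hk : ¬ p0 ∣ k) (x : ZMod m) :
    (∃ z : ZMod m', emb m' m z = (k : ZMod m) * x) ↔ (∃ z : ZMod m', emb m' m z = x) := by
  rw [GF_mem_iff hm, GF_mem_iff hm]
  constructor
  · intro h
    obtain ⟨a, ha⟩ := GF_inv_nat (m := m) hp0 k hk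
    have h1 : (p0 : ZMod m) * ((m' : ZMod m) * x) = 0 := by
      rw [← mul_assoc]
      have : (p0 : ZMod m) * (m' : ZMod m) = 0 := by
        rw [← Nat.cast_mul, Nat.mul_comm, hm, ZMod.natCast_self]
      rw [this, zero_mul]
    have h2 := (ha _ h1).2
    rw [← h2, mul_left_comm (k : ZMod m), h, mul_zero]
  · intro h
    rw [mul_left_comm, h, mul_zero]

lemma GF_order_cast (hm : m' * p0 = m) (hp0 : p0.Prime) (x : ZMod m)
    (hx : ¬ ∃ y : ZMod m', emb m' m y = x) :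
    addOrderOf x = p0 * addOrderOf (ZMod.castHom (GF_dvd hm) (ZMod m') x) := by
  rw [← GF_order_emb hm, GF_emb_cast hm]
  rw [GF_mem_iff_order hm] at hx
  have hdv : p0 ∣ addOrderOf x := by
    by_contra hc
    have h1 : addOrderOf x ∣ m' * p0 := by rw [hm]; exact addOrderOf_dvd' x
    exact hx (((Nat.Prime.coprime_iff_not_dvd hp0).2 hc).symm.dvd_of_dvd_mul_right h1)
  have h2 : addOrderOf (p0 • x) = addOrderOf x / Nat.gcd (addOrderOf x) p0 :=
    addOrderOf_nsmul x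
  rw [Nat.gcd_eq_right hdv] at h2
  rw [← nsmul_eq_mul, h2, Nat.mul_div_cancel' hdv]

/-- the full `p0`-part -/
lemma GF_full (hm : m' * p0 = m) (hp0 : p0.Prime) (x : ZMod m)
    (hx : ¬ ∃ y : ZMod m', emb m' m y = x) (E : ℕ) (hE : ∃ k, ¬ p0 ∣ k ∧ E ∣ m' * k)
    (hE' : E ∣ addOrderOf x) : E ∣ addOrderOf (ZMod.castHom (GF_dvd hm) (ZMod m') x) := by
  set n := addOrderOf (ZMod.castHom (GF_dvd hm) (ZMod m') x) with hn
  have h1 := GF_order_cast hm hp0 x hx
  rw [← hn] at h1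
  rw [GF_mem_iff_order hm, h1] at hx
  have hnm : n ∣ m' := addOrderOf_dvd' _
  obtain ⟨k, hk⟩ := hnm
  have hpk : ¬ p0 ∣ k := by
    rintro ⟨r, rfl⟩
    apply hx
    exact ⟨r, by rw [hk]; ring⟩
  obtain ⟨c, hc, hEc⟩ := hE
  have h2 : E ∣ n * p0 := by rw [Nat.mul_comm, ← h1]; exact hE'
  have h3 : E ∣ n * (k * c) := by rw [← mul_assoc, ← hk]; exact hEc
  have h4 : E ∣ Nat.gcd (n * p0) (n * (k * c)) := Nat.dvd_gcd h2 h3
  rw [Nat.gcd_mul_left] at h4
  have h5 : Nat.Coprime p0 (k * c) := by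
    rw [Nat.Prime.coprime_iff_not_dvd hp0, hp0.dvd_mul]
    tauto
  rw [h5.gcd_eq_one, mul_one] at h4
  exact h4

end step

end Pool.Agent.helper88.EF
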