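import Pool.Agent.helper82.EF.GF0

/-! # Project EF, module GF: one step -/

namespace Pool.Agent.helper88.EF

open Finset Pool.Agent.helper76.LP

section step
variable {m' m p0 : ℕ} [NeZero m'] [NeZero m]

/-- the extension -/
noncomputable def GF_s (hm : m' * p0 = m) (s' T : ZMod m' → ℚ) (x : ZMod m) : ℚ :=
  open Classical in
  if h : ∃ y : ZMod m', emb m' m y = x then s' h.choose else
    T (ZMod.castHom (GF_dvd hm) (ZMod m') x)

lemma GF_s_emb (hm : m' * p0 = m) (s' T : ZMod m' → ℚ) (y : ZMod m') :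
    GF_s hm s' T (emb m' m y) = s' y := by
  classical
  unfold GF_s
  have h : ∃ z : ZMod m', emb m' m z = emb m' m y := ⟨y, rfl⟩
  rw [dif_pos h]
  congr 1
  exact emb_injective (GF_dvd hm) h.choose_spec

omit [NeZero m] in
lemma GF_s_not (hm : m' * p0 = m) (s' T : ZMod m' → ℚ) (x : ZMod m)
    (hx : ¬ ∃ y : ZMod m', emb m' m y = x) :
    GF_s hm s' T x = T (ZMod.castHom (GF_dvd hm) (ZMod m') x) := by
  classical
  unfold GF_s
  rw [dif_neg hx]

lemma GF_sum_emb (hm : m' * p0 = m) (p : ℕ) (hpm : p ∣ m') (f : ZMod m → ℚ) :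
    (∑ t : ZMod m, if (p : ZMod m) * t = 0 then f t else 0) =
      ∑ t : ZMod m', if (p : ZMod m') * t = 0 then f (emb m' m t) else 0 := by
  classical
  rw [← Finset.sum_filter, ← Finset.sum_filter]
  symm
  refine Finset.sum_bij (fun t _ => emb m' m t) ?_ ?_ ?_ ?_
  · intro t ht
    rw [mem_filter] at ht ⊢
    refine ⟨mem_univ _, ?_⟩
    rw [GF_nat_mul_emb hm, ht.2, emb_zero]
  · intro t _ t' _ h
    exact emb_injective (GF_dvd hm) h
  · intro t ht
    rw [mem_filter] at ht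
    have h1 : ∃ y : ZMod m', emb m' m y = t := by
      rw [GF_mem_iff hm]
      obtain ⟨k, hk⟩ := hpm
      rw [hk]
      push_cast
      rw [mul_comm (p : ZMod m), mul_assoc, ht.2, mul_zero]
    obtain ⟨y, hy⟩ := h1
    refine ⟨y, ?_, hy⟩
    rw [mem_filter]
    refine ⟨mem_univ _, ?_⟩
    apply emb_injective (GF_dvd hm)
    rw [← GF_nat_mul_emb hm, hy, ht.2, emb_zero]
  · intro t _; rfl

lemma GF_tsum_add {M : ℕ} [NeZero M] (p : ℕ) (s : ZMod M → ℚ) (x : ZMod M) :
    GF_tsum p s x = ∑ t : ZMod M, if (p : ZMod M) * t = 0 then s (x + t) else 0 := rfl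

/-- primes different from `p0` -/
lemma GF_dist_ne (hm : m' * p0 = m) (hp0 : p0.Prime) (p : ℕ) (hp : p.Prime) (hpm : p ∣ m')
    (hne : p ≠ p0) (s' T : ZMod m' → ℚ)
    (hs : ∀ x, GF_tsum p s' x = s' ((p : ZMod m') * x))
    (hT : ∀ x, GF_tsum p T x = T ((p : ZMod m') * x)) (x : ZMod m) :
    GF_tsum p (GF_s hm s' T) x = GF_s hm s' T ((p : ZMod m) * x) := by
  classical
  rw [GF_tsum_add, GF_sum_emb hm p hpm (fun t => GF_s hm s' T (x + t))]
  by_cases hx : ∃ y : ZMod m', emb m' m y = x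
  · obtain ⟨y, rfl⟩ := hx
    rw [GF_nat_mul_emb hm, GF_s_emb, ← hs y, GF_tsum_add]
    refine Finset.sum_congr rfl fun t _ => ?_
    split_ifs
    · rw [← emb_add (GF_dvd hm), GF_s_emb]
    · rfl
  · have hpx : ¬ ∃ y : ZMod m', emb m' m y = (p : ZMod m) * x := by
      rw [GF_mem_mul hm hp0 p _ x]
      · exact hx
      · intro h
        exact hne ((Nat.prime_dvd_prime_iff_eq hp0 hp).1 h).symm
    rw [GF_s_not hm s' T _ hpx, map_mul, map_natCast, ← hT, GF_tsum_add]
    obtain ⟨a, ha⟩ := GF_inv_nat (m := m') hp p0 (fun h => hne ((Nat.prime_dvd_prime_iff_eq hp hp0).1 h))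
    rw [← GF_tsum_mul (p := p) (p0 : ZMod m') a ha
      (fun t => T (ZMod.castHom (GF_dvd hm) (ZMod m') x + t))]
    refine Finset.sum_congr rfl fun t _ => ?_
    split_ifs
    · have h1 : ¬ ∃ y : ZMod m', emb m' m y = x + emb m' m t := by
        rw [GF_mem_add hm]; exact hx
      rw [GF_s_not hm s' T _ h1, map_add, GF_cast_emb hm]
    · rfl

/-- the prime `p0`, if it divides `m'` -/
lemma GF_dist_C (hm : m' * p0 = m) (hp0 : p0.Prime) (hpm : p0 ∣ m') (s' T : ZMod m' → ℚ)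
    (hs : ∀ x, GF_tsum p0 s' x = s' ((p0 : ZMod m') * x))
    (hT : ∀ x, T x = s' x / p0) (x : ZMod m) :
    GF_tsum p0 (GF_s hm s' T) x = GF_s hm s' T ((p0 : ZMod m) * x) := by
  classical
  rw [GF_tsum_add, GF_sum_emb hm p0 hpm (fun t => GF_s hm s' T (x + t))]
  by_cases hx : ∃ y : ZMod m', emb m' m y = x
  · obtain ⟨y, rfl⟩ := hx
    rw [GF_nat_mul_emb hm, GF_s_emb, ← hs y, GF_tsum_add]
    refine Finset.sum_congr rfl fun t _ => ?_
    split_ifs
    · rw [← emb_add (GF_dvd hm), GF_s_emb]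
    · rfl
  · rw [← GF_emb_cast hm, GF_s_emb]
    have h1 : ∀ t : ZMod m', (if (p0 : ZMod m') * t = 0 then GF_s hm s' T (x + emb m' m t) else 0)
        = if (p0 : ZMod m') * t = 0 then T (ZMod.castHom (GF_dvd hm) (ZMod m') x) else 0 := by
      intro t
      split_ifs with ht
      · have h1 : ¬ ∃ y : ZMod m', emb m' m y = x + emb m' m t := by
          rw [GF_mem_add hm]; exact hx
        rw [GF_s_not hm s' T _ h1, map_add, GF_cast_emb hm, ht, add_zero]
      · rfl
    rw [Finset.sum_congr rfl fun t _ => h1 t]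
    have h2 := GF_range_sum (m := m') hp0.pos hpm
      (fun _ => T (ZMod.castHom (GF_dvd hm) (ZMod m') x)) 0
    rw [GF_tsum_add] at h2
    rw [← h2, Finset.sum_const, card_range, hT, nsmul_eq_mul]
    have : (p0 : ℚ) ≠ 0 := by exact_mod_cast hp0.ne_zero
    field_simp

/-- the prime `p0`, if it does not divide `m'` -/
lemma GF_dist_E (hm : m' * p0 = m) (hp0 : p0.Prime) (s' T : ZMod m' → ℚ)
    (u : (ZMod m')ˣ) (hu : (u : ZMod m') * (p0 : ZMod m') = 1)
    (hT : ∀ x, T x = (s' x - s' (u * x)) / (p0 - 1)) (x : ZMod m) :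
    GF_tsum p0 (GF_s hm s' T) x = GF_s hm s' T ((p0 : ZMod m) * x) := by
  classical
  have hpm : p0 ∣ m := Dvd.intro_left m' hm
  set y0 : ZMod m' := u * ZMod.castHom (GF_dvd hm) (ZMod m') x with hy0
  set t0 : ZMod m := emb m' m y0 - x with ht0
  have hp1 : (p0 : ℚ) - 1 ≠ 0 := by
    have : (1 : ℚ) < p0 := by exact_mod_cast hp0.one_lt
    linarith
  have h1 : (p0 : ZMod m) * t0 = 0 := by
    rw [ht0, mul_sub, GF_nat_mul_emb hm, hy0, ← mul_assoc, mul_comm (p0 : ZMod m'), hu, one_mul,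
      GF_emb_cast hm, sub_self]
  have h2 : ∀ t : ZMod m, (if (p0 : ZMod m) * t = 0 then GF_s hm s' T (x + t) else 0) =
      (if (p0 : ZMod m) * t = 0 then T (ZMod.castHom (GF_dvd hm) (ZMod m') x) else 0) +
      (if t = t0 then s' y0 - T (ZMod.castHom (GF_dvd hm) (ZMod m') x) else 0) := by
    intro t
    by_cases ht : t = t0
    · subst ht
      rw [if_pos h1, if_pos h1, if_pos rfl]
      have : x + t0 = emb m' m y0 := by rw [ht0]; ring
      rw [this, GF_s_emb]; ring
    · rw [if_neg ht, add_zero]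
      split_ifs with hpt
      · have hcast : ZMod.castHom (GF_dvd hm) (ZMod m') (x + t) =
            ZMod.castHom (GF_dvd hm) (ZMod m') x := by
          apply emb_injective (GF_dvd hm)
          rw [GF_emb_cast hm, GF_emb_cast hm, mul_add, hpt, add_zero]
        have h3 : ¬ ∃ y : ZMod m', emb m' m y = x + t := by
          rintro ⟨y, hy⟩
          apply ht
          have h4 : (p0 : ZMod m') * y = ZMod.castHom (GF_dvd hm) (ZMod m') x := by
            rw [← hcast, ← hy, GF_cast_emb hm]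
          have h5 : y = y0 := by
            rw [hy0, ← h4, ← mul_assoc, hu, one_mul]
          rw [ht0, ← h5, hy]; ring
        rw [GF_s_not hm s' T _ h3, hcast]
      · rfl
  rw [GF_tsum_add, Finset.sum_congr rfl fun t _ => h2 t, Finset.sum_add_distrib,
    Finset.sum_ite_eq' Finset.univ t0, if_pos (mem_univ _)]
  have h2 := GF_range_sum (m := m) hp0.pos hpm
    (fun _ => T (ZMod.castHom (GF_dvd hm) (ZMod m') x)) 0
  rw [GF_tsum_add] at h2
  rw [← h2, Finset.sum_const, card_range, nsmul_eq_mul, ← GF_emb_cast hm, GF_s_emb, hT, ← hy0]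
  field_simp
  ring

/-- the combination -/
def GF_T (a b : ℚ) (u : (ZMod m')ˣ) (s' : ZMod m' → ℚ) (y : ZMod m') : ℚ :=
  a * s' y + b * s' (u * y)

lemma GF_T_dist (a b : ℚ) (u : (ZMod m')ˣ) (s' : ZMod m' → ℚ) (p : ℕ)
    (hs : ∀ x, GF_tsum p s' x = s' ((p : ZMod m') * x)) (x : ZMod m') :
    GF_tsum p (GF_T a b u s') x = GF_T a b u s' ((p : ZMod m') * x) := by
  classical
  unfold GF_T
  rw [← hs x, mul_left_comm (u : ZMod m'), ← hs (u * x), GF_tsum_add, GF_tsum_add, GF_tsum_add,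
    ← GF_tsum_mul (p := p) (u : ZMod m') ((u⁻¹ : (ZMod m')ˣ) : ZMod m')
      (fun t _ => ⟨by rw [Units.mul_inv_cancel_left], by rw [Units.inv_mul_cancel_left]⟩)
      (fun t => s' ((u : ZMod m') * x + t)), Finset.mul_sum, Finset.mul_sum,
    ← Finset.sum_add_distrib]
  refine Finset.sum_congr rfl fun t _ => ?_
  split_ifs
  · rw [mul_add]
  · simp

omit [NeZero m'] in
lemma GF_order_unit (u : (ZMod m')ˣ) (y : ZMod m') :
    addOrderOf ((u : ZMod m') * y) = addOrderOf y := by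
  rw [addOrderOf_eq_addOrderOf_iff]
  intro n
  rw [nsmul_eq_mul, nsmul_eq_mul, mul_left_comm, Units.mul_right_eq_zero]

end step

end Pool.Agent.helper88.EF
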